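import Mathlib
import Pool.Agent.H203R4.DF.All

set_option autoImplicit false

/-!
For every infinite discrete group `G` the homological dimension of the augmentation module over
`ℓ¹(G)`, the small dimension and the global dimension of `ℓ¹(G)` are infinite.
-/

namespace Pool.Agent.Results.MP_df984a_an.DiscreteGroups

open Pool.Agent.Helper832.CD Pool.Agent.H203R3.BH Pool.Agent.H203R4.DF

universe u

/-- `Alg G` is the Banach algebra `ℓ¹(G)` and `dg1 g` the point mass at `g`. -/
theorem result (G : Type u) [Group G] [Infinite G] :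
    (∀ (X : LMod (Alg G)) (_ : ℂ ≃L[ℂ] X.carrier), (∀ (g : G) x, X.act (dg1 g) x = x) →
      X.dh = ⊤) ∧ ds (Alg G) = ⊤ ∧ dg (Alg G) = ⊤ :=
  all G

end Pool.Agent.Results.MP_df984a_an.DiscreteGroups
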